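import Pool.Agent.V1180.Bub3

set_option autoImplicit false

/-! MP_105042_an: for `n = k = 3` and every `p ∈ [2, 3)`, pointwise vanishing of the Morrey
quantity does not imply (Hölder) continuity. -/

open Set Filter Topology MeasureTheory Metric
open scoped ContDiff ENNReal

namespace Pool.Agent.Results.MP_105042_an.Bubbles

open Pool.Agent.V1180.Bub

section Defs

variable {n k : ℕ}

/-- smooth maps with compact support in the open unit ball -/
def IsTest {F : Type} [NormedAddCommGroup F] [NormedSpace ℝ F] (φ : Vec n → F) : Prop :=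
  ContDiff ℝ ∞ φ ∧ HasCompactSupport φ ∧ tsupport φ ⊆ ball 0 1

/-- the gradient matrix of a smooth map -/
noncomputable def grad (φ : Vec n → Vec k) (x : Vec n) : Mat n k :=
  WithLp.toLp 2 fun ij => pd ij.1 φ x ij.2

/-- `Du` is the weak gradient of `u` in the unit ball -/
def IsWeakGradient (u : Vec n → Vec k) (Du : Vec n → Mat n k) : Prop :=
  ∀ φ : Vec n → ℝ, IsTest φ → ∀ i j,
    ∫ x in ball 0 1, u x j * pd i φ x = - ∫ x in ball 0 1, Du x (i, j) * φ x

/-- `u ∈ W^{1,p}(B_1)` with weak gradient `Du` -/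
def MemW1p (p : ℝ) (u : Vec n → Vec k) (Du : Vec n → Mat n k) : Prop :=
  MemLp u (ENNReal.ofReal p) (volume.restrict (ball 0 1)) ∧
    MemLp Du (ENNReal.ofReal p) (volume.restrict (ball 0 1)) ∧ IsWeakGradient u Du

/-- quadratic growth in the last variable -/
def QuadraticGrowth (Q : Vec n → Vec k → Mat n k → Vec k) : Prop :=
  ∃ C > 0, ∀ x y z, ‖Q x y z‖ ≤ C * ‖z‖ ^ 2

/-- `u` (with weak gradient `Du`) is a weak solution of `Δ u = Q(x, u, ∇ u)` in the unit ball -/
def IsWeakSolution (Q : Vec n → Vec k → Mat n k → Vec k) (u : Vec n → Vec k)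
    (Du : Vec n → Mat n k) : Prop :=
  MemW1p 2 u Du ∧ IntegrableOn (fun x => Q x (u x) (Du x)) (ball 0 1) ∧
    ∀ φ : Vec n → Vec k, IsTest φ →
      - ∫ x in ball 0 1, inner ℝ (Du x) (grad φ x) =
        ∫ x in ball 0 1, inner ℝ (Q x (u x) (Du x)) (φ x)

/-- the Morrey quantity `r^{-(n-p)} ∫_{B_r(x0)} |∇ u|^p` -/
noncomputable def morrey (p : ℝ) (Du : Vec n → Mat n k) (x0 : Vec n) (r : ℝ) : ℝ :=
  (1 / r ^ ((n : ℝ) - p)) * ∫ x in ball x0 r, ‖Du x‖ ^ p

/-- `u` agrees a.e. in `B_{1/2}` with a Hölder continuous map -/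
def HolderInHalf (u : Vec n → Vec k) : Prop :=
  ∃ v : Vec n → Vec k, (∀ᵐ x ∂(volume.restrict (ball 0 (1 / 2))), u x = v x) ∧
    ∃ α C : ℝ, 0 < α ∧ α < 1 ∧
      ∀ x ∈ ball (0 : Vec n) (1 / 2), ∀ y ∈ ball (0 : Vec n) (1 / 2),
        ‖v x - v y‖ ≤ C * ‖x - y‖ ^ α

/-- `u` agrees a.e. in `B_{1/2}` with a continuous map -/
def ContinuousInHalf (u : Vec n → Vec k) : Prop :=
  ∃ v : Vec n → Vec k, (∀ᵐ x ∂(volume.restrict (ball 0 (1 / 2))), u x = v x) ∧
    ContinuousOn v (ball (0 : Vec n) (1 / 2))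

end Defs

/-! ### Weak identities -/

theorem ball_int {f : Vec 3 → ℝ} (hf : ∀ x, x ∉ ball (0 : Vec 3) 1 → f x = 0) :
    ∫ x in ball (0 : Vec 3) 1, f x = ∫ x, f x :=
  setIntegral_eq_integral_of_forall_compl_eq_zero hf

theorem pd_smooth {φ : Vec 3 → ℝ} (hφ : ContDiff ℝ ∞ φ) (i : Fin 3) :
    ContDiff ℝ ∞ (pd i φ) := by
  have h1 : ContDiff ℝ ∞ (fderiv ℝ φ) := hφ.fderiv_right (by simp)
  exact h1.clm_apply contDiff_const

theorem pd_supp {φ : Vec 3 → ℝ} (hφ : IsTest φ) (i : Fin 3) {x : Vec 3}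
    (hx : x ∉ ball (0 : Vec 3) 1) : pd i φ x = 0 := by
  have h1 : x ∉ tsupport φ := fun h => hx (hφ.2.2 h)
  have h2 : x ∉ tsupport (fderiv ℝ φ) := fun h => h1 (tsupport_fderiv_subset ℝ h)
  unfold pd
  rw [image_eq_zero_of_notMem_tsupport h2]
  rfl

theorem pd_compact {φ : Vec 3 → ℝ} (hφ : IsTest φ) (i : Fin 3) : HasCompactSupport (pd i φ) :=
  (hφ.2.1.fderiv (𝕜 := ℝ)).comp_left (g := fun L : Vec 3 →L[ℝ] ℝ =>
    L (EuclideanSpace.single i 1)) (by simp)

theorem test_supp {φ : Vec 3 → ℝ} (hφ : IsTest φ) {x : Vec 3}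
    (hx : x ∉ ball (0 : Vec 3) 1) : φ x = 0 :=
  image_eq_zero_of_notMem_tsupport fun h => hx (hφ.2.2 h)

/-- integration by parts in the ball -/
theorem ibp {w φ : Vec 3 → ℝ} (hw : ContDiff ℝ ∞ w) (hφ : IsTest φ) (i : Fin 3) :
    ∫ x in ball (0 : Vec 3) 1, w x * pd i φ x = - ∫ x in ball (0 : Vec 3) 1, pd i w x * φ x := by
  rw [ball_int fun x hx => by rw [pd_supp hφ i hx, mul_zero],
    ball_int fun x hx => by rw [test_supp hφ hx, mul_zero]]
  have hw' := pd_smooth hw i
  have hφ' := pd_smooth hφ.1 i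
  have hc := hφ.2.1
  have hc' := pd_compact hφ i
  exact integral_mul_fderiv_eq_neg_fderiv_mul_of_integrable (μ := volume)
    (f := w) (g := φ) (v := EuclideanSpace.single i 1)
    ((hw'.continuous.mul hφ.1.continuous).integrable_of_hasCompactSupport hc.mul_left)
    ((hw.continuous.mul hφ'.continuous).integrable_of_hasCompactSupport hc'.mul_left)
    ((hw.continuous.mul hφ.1.continuous).integrable_of_hasCompactSupport hc.mul_left)
    (fun x _ => hw.differentiable (by simp) x) (fun x _ => hφ.1.differentiable (by simp) x)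

/-- termwise integration -/
theorem termwise {G : ℕ → Vec 3 → ℝ} (hG : ∀ j, Continuous (G j))
    (hs : Summable fun j => ∫ x in ball (0 : Vec 3) 1, |G j x|) {ψ : Vec 3 → ℝ}
    (hψ : Continuous ψ) {C : ℝ} (hC : ∀ x, |ψ x| ≤ C) :
    ∫ x in ball (0 : Vec 3) 1, (∑' j, G j x) * ψ x =
      ∑' j, ∫ x in ball (0 : Vec 3) 1, G j x * ψ x := by
  have h1 : ∀ j, Integrable (fun x => G j x * ψ x) (volume.restrict (ball (0 : Vec 3) 1)) :=
    fun j => intOn_of_continuous ((hG j).mul hψ)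
  rw [integral_tsum_of_summable_integral_norm h1]
  · congr 1
    ext x
    rw [tsum_mul_right]
  · refine Summable.of_nonneg_of_le (fun j => integral_nonneg fun x => norm_nonneg _) (fun j => ?_)
      (hs.mul_right C)
    rw [← integral_mul_const]
    apply integral_mono (h1 j).norm ((intOn_of_continuous (hG j).abs).mul_const C)
    intro x
    change ‖G j x * ψ x‖ ≤ |G j x| * C
    rw [norm_mul, Real.norm_eq_abs, Real.norm_eq_abs]
    exact mul_le_mul_of_nonneg_left (hC x) (abs_nonneg _)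

theorem entry_le {ι : Type} [Fintype ι] (v : EuclideanSpace ℝ ι) (i : ι) : |v i| ≤ ‖v‖ := by
  have := PiLp.norm_apply_le v i
  simpa using this

theorem sum_abs {G : ℕ → Vec 3 → ℝ} (hG : ∀ j, Continuous (G j)) {C : ℝ}
    (h : ∀ j, ∀ x ∈ ball (0 : Vec 3) 1, |G j x| ≤ C * aa (rh j) (yc j) x) :
    Summable fun j => ∫ x in ball (0 : Vec 3) 1, |G j x| := by
  refine Summable.of_nonneg_of_le (fun j => integral_nonneg fun x => abs_nonneg _) (fun j => ?_)
    (aa_summable.mul_left C)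
  rw [← integral_const_mul]
  apply setIntegral_mono_on (intOn_of_continuous (hG j).abs)
    ((intOn_of_continuous (aa_continuous j)).const_mul C) measurableSet_ball
  exact h j

theorem sum_abs_sq {G : ℕ → Vec 3 → ℝ} (hG : ∀ j, Continuous (G j)) {C : ℝ}
    (h : ∀ j, ∀ x ∈ ball (0 : Vec 3) 1, |G j x| ≤ C * aa (rh j) (yc j) x ^ 2) :
    Summable fun j => ∫ x in ball (0 : Vec 3) 1, |G j x| := by
  refine Summable.of_nonneg_of_le (fun j => integral_nonneg fun x => abs_nonneg _) (fun j => ?_)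
    (aa_sq_summable.mul_left C)
  rw [← integral_const_mul]
  apply setIntegral_mono_on (intOn_of_continuous (hG j).abs)
    ((aa_sq_int j).integrableOn.const_mul C) measurableSet_ball
  exact h j

theorem bubk_sum (k : Fin 3) :
    Summable fun j => ∫ x in ball (0 : Vec 3) 1, |bub (rh j) (yc j) x k| := by
  apply sum_abs (C := 2) fun j => (bubk_contDiff (yc j) (rh_pos j) k).continuous
  intro j x hx
  refine (entry_le _ k).trans ?_
  rw [bub_norm _ _ (rh_pos j), mul_comm]
  apply mul_le_mul_of_nonneg_right _ (aa_pos _ _ (rh_pos j)).le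
  rw [mem_ball_zero_iff] at hx
  have h1 : ‖x - yc j‖ ≤ ‖x‖ + ‖yc j‖ := norm_sub_le _ _
  rw [yc_norm] at h1
  have := b_le_one j
  linarith

theorem gbk_sum (i k : Fin 3) :
    Summable fun j => ∫ x in ball (0 : Vec 3) 1, |gb (rh j) (yc j) x (i, k)| := by
  apply sum_abs (C := 3) fun j => (gbk_contDiff (yc j) (rh_pos j) i k).continuous
  intro j x _
  exact (entry_le _ (i, k)).trans (gb_norm_le _ _ (rh_pos j))

theorem lbk_continuous (j : ℕ) (k : Fin 3) : Continuous fun x => lb (rh j) (yc j) x k :=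
  (EuclideanSpace.proj k : Vec 3 →L[ℝ] ℝ).continuous.comp (lb_continuous j)

theorem lbk_sum (k : Fin 3) :
    Summable fun j => ∫ x in ball (0 : Vec 3) 1, |lb (rh j) (yc j) x k| := by
  apply sum_abs_sq (C := 15) fun j => lbk_continuous j k
  intro j x _
  exact (entry_le _ k).trans (lb_norm_le _ _ (rh_pos j))

theorem uu_apply (x : Vec 3) (k : Fin 3) : uu x k = x k + ∑' j, bub (rh j) (yc j) x k := by
  unfold uu
  have h := (EuclideanSpace.proj k : Vec 3 →L[ℝ] ℝ).map_tsum (sum_bub x)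
  have e : (x + ∑' j, bub (rh j) (yc j) x) k = x k + (∑' j, bub (rh j) (yc j) x) k := rfl
  rw [e]
  congr 1

theorem Du_apply (x : Vec 3) (i k : Fin 3) :
    Du x (i, k) = (if i = k then 1 else 0) + ∑' j, gb (rh j) (yc j) x (i, k) := by
  unfold Du
  have h := (EuclideanSpace.proj (i, k) : Mat 3 3 →L[ℝ] ℝ).map_tsum (sum_gb x)
  have e : (idm + ∑' j, gb (rh j) (yc j) x) (i, k) =
    idm (i, k) + (∑' j, gb (rh j) (yc j) x) (i, k) := rfl
  rw [e]
  congr 1

theorem Lu_apply (x : Vec 3) (k : Fin 3) : Lu x k = ∑' j, lb (rh j) (yc j) x k := by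
  unfold Lu
  exact (EuclideanSpace.proj k : Vec 3 →L[ℝ] ℝ).map_tsum (sum_lb x)

theorem memLp_entry {p : ℝ≥0∞} {ι : Type} [Fintype ι] {f : Vec 3 → EuclideanSpace ℝ ι}
    (hf : MemLp f p (volume.restrict (ball (0 : Vec 3) 1))) (i : ι) :
    MemLp (fun x => f x i) p (volume.restrict (ball (0 : Vec 3) 1)) :=
  (EuclideanSpace.proj i : EuclideanSpace ℝ ι →L[ℝ] ℝ).comp_memLp' hf

theorem uu_memLp (p : ℝ≥0∞) : MemLp uu p (volume.restrict (ball (0 : Vec 3) 1)) := by
  apply MemLp.of_bound uu_meas.aestronglyMeasurable 3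
  refine (ae_restrict_iff' measurableSet_ball).2 (ae_of_all _ fun x hx => ?_)
  rw [mem_ball_zero_iff] at hx
  linarith [uu_le x]

theorem int_of_memLp {f : Vec 3 → ℝ}
    (hf : MemLp f 2 (volume.restrict (ball (0 : Vec 3) 1))) :
    IntegrableOn f (ball (0 : Vec 3) 1) :=
  hf.integrable (by norm_num)

theorem Du_memLp2 : MemLp Du 2 (volume.restrict (ball (0 : Vec 3) 1)) := by
  have := Du_memLp (p := 2) (by norm_num) (by norm_num)
  simpa using this

theorem sumb_int (k : Fin 3) :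
    IntegrableOn (fun x => ∑' j, bub (rh j) (yc j) x k) (ball (0 : Vec 3) 1) := by
  have h1 := int_of_memLp (memLp_entry (uu_memLp 2) k)
  have h2 : IntegrableOn (fun x : Vec 3 => x k) (ball (0 : Vec 3) 1) :=
    intOn_of_continuous (EuclideanSpace.proj k : Vec 3 →L[ℝ] ℝ).continuous
  refine (h1.sub h2).congr (ae_of_all _ fun x => ?_)
  simp only [Pi.sub_apply]
  rw [uu_apply]
  ring

theorem sumg_int (i k : Fin 3) :
    IntegrableOn (fun x => ∑' j, gb (rh j) (yc j) x (i, k)) (ball (0 : Vec 3) 1) := by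
  have h1 := int_of_memLp (memLp_entry Du_memLp2 (i, k))
  have h2 : IntegrableOn (fun _ : Vec 3 => if i = k then (1:ℝ) else 0) (ball (0 : Vec 3) 1) :=
    intOn_of_continuous continuous_const
  refine (h1.sub h2).congr (ae_of_all _ fun x => ?_)
  simp only [Pi.sub_apply]
  rw [Du_apply]
  ring

theorem Lu_int : IntegrableOn Lu (ball (0 : Vec 3) 1) := by
  have h1 : Integrable (fun x => ‖Du x‖ ^ 2) (volume.restrict (ball (0 : Vec 3) 1)) :=
    Du_memLp2.integrable_norm_pow (by norm_num)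
  refine (h1.const_mul 15).mono' Lu_meas.aestronglyMeasurable (ae_of_all _ fun x => Lu_le x)

theorem Luk_int (k : Fin 3) : IntegrableOn (fun x => Lu x k) (ball (0 : Vec 3) 1) :=
  (EuclideanSpace.proj k : Vec 3 →L[ℝ] ℝ).integrable_comp Lu_int

theorem bdd_cont {ψ : Vec 3 → ℝ} (hψ : Continuous ψ) (hc : HasCompactSupport ψ) :
    ∃ C, ∀ x, |ψ x| ≤ C := hc.exists_bound_of_continuous hψ

theorem mul_int {f ψ : Vec 3 → ℝ} (hf : IntegrableOn f (ball (0 : Vec 3) 1)) (hψ : Continuous ψ)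
    (hc : HasCompactSupport ψ) : IntegrableOn (fun x => f x * ψ x) (ball (0 : Vec 3) 1) := by
  obtain ⟨C, hC⟩ := bdd_cont hψ hc
  exact hf.mul_bdd (c := C) hψ.aestronglyMeasurable (ae_of_all _ hC)

theorem weak_grad : IsWeakGradient uu Du := by
  intro φ hφ i k
  have hφ' := pd_smooth hφ.1 i
  have hc' := pd_compact hφ i
  obtain ⟨C, hC⟩ := bdd_cont hφ'.continuous hc'
  obtain ⟨C', hC'⟩ := bdd_cont hφ.1.continuous hφ.2.1
  have hx : ContDiff ℝ ∞ (fun x : Vec 3 => x k) := by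
    have := coord_contDiff (0 : Vec 3) k
    simpa using this
  have hxint : IntegrableOn (fun x : Vec 3 => x k) (ball (0 : Vec 3) 1) :=
    intOn_of_continuous hx.continuous
  have hpdx : ∀ x : Vec 3, pd i (fun x : Vec 3 => x k) x = if i = k then 1 else 0 := by
    intro x
    have := pd_coord (0 : Vec 3) x i k
    simpa using this
  have e1 : ∀ x, uu x k * pd i φ x = x k * pd i φ x +
      (∑' j, bub (rh j) (yc j) x k) * pd i φ x := by
    intro x; rw [uu_apply]; ring
  have e2 : ∀ x, Du x (i, k) * φ x = (if i = k then 1 else 0) * φ x +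
      (∑' j, gb (rh j) (yc j) x (i, k)) * φ x := by
    intro x; rw [Du_apply]; ring
  simp_rw [e1, e2]
  rw [integral_add (mul_int hxint hφ'.continuous hc') (mul_int (sumb_int k) hφ'.continuous hc'),
    integral_add (mul_int (intOn_of_continuous continuous_const) hφ.1.continuous hφ.2.1)
      (mul_int (sumg_int i k) hφ.1.continuous hφ.2.1),
    termwise (fun j => (bubk_contDiff (yc j) (rh_pos j) k).continuous) (bubk_sum k)
      hφ'.continuous hC,
    termwise (fun j => (gbk_contDiff (yc j) (rh_pos j) i k).continuous) (gbk_sum i k)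
      hφ.1.continuous hC', ibp hx hφ i]
  have e3 : ∀ j, ∫ x in ball (0 : Vec 3) 1, bub (rh j) (yc j) x k * pd i φ x =
      - ∫ x in ball (0 : Vec 3) 1, gb (rh j) (yc j) x (i, k) * φ x := by
    intro j
    rw [ibp (bubk_contDiff (yc j) (rh_pos j) k) hφ i]
    simp_rw [pd_bub (yc j) _ (rh_pos j)]
  simp_rw [e3, hpdx]
  rw [tsum_neg]
  ring

/-- components of a vector valued test function -/
theorem test_comp {φ : Vec 3 → Vec 3} (hφ : IsTest φ) (k : Fin 3) :
    IsTest (fun x => φ x k) := by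
  refine ⟨(EuclideanSpace.proj k : Vec 3 →L[ℝ] ℝ).contDiff.comp hφ.1,
    hφ.2.1.comp_left (g := fun v : Vec 3 => v k) (by simp), ?_⟩
  refine (closure_mono ?_).trans hφ.2.2
  intro x hx h
  apply hx
  simp only
  rw [h]
  rfl

theorem pd_comp {φ : Vec 3 → Vec 3} (hφ : IsTest φ) (i k : Fin 3) (x : Vec 3) :
    pd i φ x k = pd i (fun x => φ x k) x := by
  unfold pd
  have h1 : HasFDerivAt φ (fderiv ℝ φ x) x := (hφ.1.differentiable (by simp) x).hasFDerivAt
  have h2 := ((EuclideanSpace.proj k : Vec 3 →L[ℝ] ℝ).hasFDerivAt.comp x h1).fderiv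
  have h3 : ((EuclideanSpace.proj k : Vec 3 →L[ℝ] ℝ) ∘ φ) = fun x => φ x k := rfl
  rw [h3] at h2
  rw [h2]
  rfl

theorem inner_mat (A B : Mat 3 3) : inner ℝ A B = ∑ k, ∑ i, A (i, k) * B (i, k) := by
  rw [PiLp.inner_apply, Fintype.sum_prod_type, Finset.sum_comm]
  refine Finset.sum_congr rfl fun k _ => Finset.sum_congr rfl fun i _ => ?_
  simp [mul_comm]

theorem inner_vec (a c : Vec 3) : inner ℝ a c = ∑ k, a k * c k := by
  rw [PiLp.inner_apply]
  refine Finset.sum_congr rfl fun k _ => ?_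
  simp [mul_comm]

theorem weak_eq (φ : Vec 3 → Vec 3) (hφ : IsTest φ) :
    - ∫ x in ball 0 1, inner ℝ (Du x) (grad φ x) = ∫ x in ball 0 1, inner ℝ (Lu x) (φ x) := by
  have hφk := fun k => test_comp hφ k
  have hint1 : ∀ i k, IntegrableOn (fun x => Du x (i, k) * pd i (fun x => φ x k) x)
      (ball (0 : Vec 3) 1) := fun i k =>
    mul_int (int_of_memLp (memLp_entry Du_memLp2 (i, k)))
      (pd_smooth (hφk k).1 i).continuous (pd_compact (hφk k) i)
  have hint2 : ∀ k, IntegrableOn (fun x => Lu x k * φ x k) (ball (0 : Vec 3) 1) := fun k =>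
    mul_int (Luk_int k) (hφk k).1.continuous (hφk k).2.1
  have e1 : ∀ x, inner ℝ (Du x) (grad φ x) =
      ∑ k, ∑ i, Du x (i, k) * pd i (fun x => φ x k) x := by
    intro x
    rw [inner_mat]
    refine Finset.sum_congr rfl fun k _ => Finset.sum_congr rfl fun i _ => ?_
    rw [← pd_comp hφ i k x]
    rfl
  simp_rw [e1, inner_vec]
  rw [integral_finsetSum _ fun k _ => integrable_finsetSum _ fun i _ => hint1 i k,
    integral_finsetSum _ fun k _ => hint2 k, ← Finset.sum_neg_distrib]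
  refine Finset.sum_congr rfl fun k _ => ?_
  rw [integral_finsetSum _ fun i _ => hint1 i k]
  obtain ⟨C', hC'⟩ := bdd_cont (hφk k).1.continuous (hφk k).2.1
  -- each entry
  have e2 : ∀ i, ∫ x in ball (0 : Vec 3) 1, Du x (i, k) * pd i (fun x => φ x k) x =
      ∑' j, ∫ x in ball (0 : Vec 3) 1, gb (rh j) (yc j) x (i, k) * pd i (fun x => φ x k) x := by
    intro i
    have hφ' := pd_smooth (hφk k).1 i
    have hc' := pd_compact (hφk k) i
    obtain ⟨C, hC⟩ := bdd_cont hφ'.continuous hc'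
    have e3 : ∀ x, Du x (i, k) * pd i (fun x => φ x k) x =
        (if i = k then 1 else 0) * pd i (fun x => φ x k) x +
        (∑' j, gb (rh j) (yc j) x (i, k)) * pd i (fun x => φ x k) x := by
      intro x; rw [Du_apply]; ring
    simp_rw [e3]
    rw [integral_add (mul_int (intOn_of_continuous continuous_const) hφ'.continuous hc')
      (mul_int (sumg_int i k) hφ'.continuous hc'),
      termwise (fun j => (gbk_contDiff (yc j) (rh_pos j) i k).continuous) (gbk_sum i k)
      hφ'.continuous hC]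
    have e4 := ibp (w := fun _ => if i = k then (1:ℝ) else 0) contDiff_const (hφk k) i
    have e5 : ∀ x : Vec 3, pd i (fun _ : Vec 3 => if i = k then (1:ℝ) else 0) x = 0 := by
      intro x; simp [pd]
    simp_rw [e5] at e4
    rw [e4]
    simp
  have hsum : ∀ i, Summable fun j => ∫ x in ball (0 : Vec 3) 1,
      gb (rh j) (yc j) x (i, k) * pd i (fun x => φ x k) x := by
    intro i
    have hφ' := pd_smooth (hφk k).1 i
    have hc' := pd_compact (hφk k) i
    obtain ⟨C, hC⟩ := bdd_cont hφ'.continuous hc'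
    refine Summable.of_norm_bounded ((gbk_sum i k).mul_right C) fun j => ?_
    refine (norm_integral_le_integral_norm _).trans ?_
    rw [← integral_mul_const]
    have hgc := (gbk_contDiff (yc j) (rh_pos j) i k).continuous
    apply integral_mono (intOn_of_continuous (hgc.mul hφ'.continuous)).norm
      ((intOn_of_continuous hgc.abs).mul_const C)
    intro x
    change ‖gb (rh j) (yc j) x (i, k) * pd i (fun x => φ x k) x‖ ≤
      |gb (rh j) (yc j) x (i, k)| * C
    rw [norm_mul, Real.norm_eq_abs, Real.norm_eq_abs]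
    exact mul_le_mul_of_nonneg_left (hC x) (abs_nonneg _)
  simp_rw [e2]
  rw [← Summable.tsum_finsetSum fun i _ => hsum i]
  have e6 : ∀ j, ∑ i, ∫ x in ball (0 : Vec 3) 1,
      gb (rh j) (yc j) x (i, k) * pd i (fun x => φ x k) x =
      - ∫ x in ball (0 : Vec 3) 1, lb (rh j) (yc j) x k * φ x k := by
    intro j
    have e7 : ∀ i, ∫ x in ball (0 : Vec 3) 1,
        gb (rh j) (yc j) x (i, k) * pd i (fun x => φ x k) x =
        - ∫ x in ball (0 : Vec 3) 1, pd i (fun z => gb (rh j) (yc j) z (i, k)) x * φ x k :=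
      fun i => ibp (gbk_contDiff (yc j) (rh_pos j) i k) (hφk k) i
    simp_rw [e7]
    rw [Finset.sum_neg_distrib, ← integral_finsetSum]
    · congr 1
      congr 1
      ext x
      rw [← pd_gb (yc j) x (rh_pos j) k, Finset.sum_mul]
    · intro i _
      exact intOn_of_continuous ((pd_smooth (gbk_contDiff (yc j) (rh_pos j) i k) i).continuous.mul
        (hφk k).1.continuous)
  simp_rw [e6]
  rw [tsum_neg, neg_neg, ← termwise (fun j => lbk_continuous j k) (lbk_sum k)
    (hφk k).1.continuous hC']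
  congr 1
  ext x
  rw [Lu_apply]

/-! ### Discontinuity -/

/-- `u` is continuous in the ball around each centre -/
theorem uu_cont (j : ℕ) : ContinuousOn uu (ball (yc j) (b j / 4)) := by
  unfold uu
  apply continuousOn_id.add
  have hs : Summable fun i => (if i = j then (1:ℝ) else 0) + b i := by
    apply Summable.add _ b_sum
    exact (hasSum_ite_eq j (1:ℝ)).summable
  apply continuousOn_tsum (fun i => (bub_continuous i).continuousOn) hs
  intro i x hx
  rw [mem_ball, dist_eq_norm] at hx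
  have hb := b_pos i
  by_cases hi : i = j
  · subst hi
    have := bub_le_one (yc i) x (rh_pos i)
    rw [if_pos rfl]
    linarith
  · have := bub_far (far_of_near hx hi)
    rw [if_neg hi]
    linarith

theorem tail_small {x : Vec 3} {j : ℕ} (hx : ‖x - yc j‖ < b j / 4) :
    ‖uu x - x - bub (rh j) (yc j) x‖ ≤ 1 / 128 := by
  have h1 := (split_main (G := fun i => bub (rh i) (yc i) x) (j := j) (C := 1 / 256) fun i hi => by
    have := bub_far (far_of_near hx hi)
    linarith).2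
  have e : uu x - x - bub (rh j) (yc j) x = (∑' i, bub (rh i) (yc i) x) -
      bub (rh j) (yc j) x := by
    unfold uu; abel
  rw [e]
  linarith

/-- the test points -/
noncomputable def pp (s : ℝ) (j : ℕ) : Vec 3 := yc j + (s * rh j) • EuclideanSpace.single 0 1

theorem bub_pp {s : ℝ} (hs : s ^ 2 = 1) (j : ℕ) : bub (rh j) (yc j) (pp s j) =
    (s * (√2)⁻¹ ^ 3) • (EuclideanSpace.single 0 1 : Vec 3) := by
  have hr := rh_pos j
  have e1 : pp s j - yc j = (s * rh j) • (EuclideanSpace.single 0 1 : Vec 3) := by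
    unfold pp; abel
  have e2 : ‖pp s j - yc j‖ ^ 2 = rh j ^ 2 := by
    rw [e1, norm_smul, PiLp.norm_single, mul_pow]
    simp [mul_pow, hs]
  have e3 : tt (rh j) (yc j) (pp s j) = (√2)⁻¹ * (rh j)⁻¹ := by
    unfold tt
    rw [e2]
    have : rh j ^ 2 + rh j ^ 2 = 2 * rh j ^ 2 := by ring
    rw [this, Real.sqrt_mul (by norm_num), Real.sqrt_sq hr.le, mul_inv]
  unfold bub
  rw [e3, e1, smul_smul]
  congr 1
  field_simp

theorem pp_near {s : ℝ} (hs : s ^ 2 = 1) (j : ℕ) : ‖pp s j - yc j‖ < b j / 4 := by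
  have hr := rh_pos j
  have hb := b_pos j
  have e1 : pp s j - yc j = (s * rh j) • (EuclideanSpace.single 0 1 : Vec 3) := by
    unfold pp; abel
  have hs' : |s| = 1 := by
    have : |s| ^ 2 = 1 := by rw [sq_abs, hs]
    nlinarith [abs_nonneg s]
  rw [e1, norm_smul, PiLp.norm_single, norm_mul, Real.norm_eq_abs, hs',
    Real.norm_of_nonneg hr.le]
  have h1 := b_le_one j
  have h2 : b j ^ 3 ≤ b j := by
    calc b j ^ 3 = b j * b j ^ 2 := by ring
      _ ≤ b j * 1 := by gcongr; exact pow_le_one₀ hb.le h1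
      _ = b j := mul_one _
  simp
  unfold rh
  linarith

theorem jump (j : ℕ) : 1 / 2 ≤ ‖uu (pp 1 j) - uu (pp (-1) j)‖ := by
  have h1 := tail_small (pp_near (s := 1) (by norm_num) j)
  have h2 := tail_small (pp_near (s := -1) (by norm_num) j)
  rw [bub_pp (by norm_num)] at h1 h2
  have hr := rh_pos j
  set e : Vec 3 := EuclideanSpace.single 0 1 with he
  have hen : ‖e‖ = 1 := by rw [he, PiLp.norm_single]; simp
  have hsq : (0.35 : ℝ) ≤ (√2)⁻¹ ^ 3 := by
    have h3 : √2 ≤ 1.415 := by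
      rw [Real.sqrt_le_left (by norm_num)]
      norm_num
    have h4 : 0 < √2 := by positivity
    have h5 : (√2) ^ 3 ≤ 1.415 ^ 3 := by gcongr
    rw [inv_pow, ← one_div, le_div_iff₀ (by positivity)]
    nlinarith
  have e1 : (2 * rh j + 2 * (√2)⁻¹ ^ 3) • e = (uu (pp 1 j) - uu (pp (-1) j)) -
      (uu (pp 1 j) - pp 1 j - (1 * (√2)⁻¹ ^ 3) • e) +
      (uu (pp (-1) j) - pp (-1) j - (-1 * (√2)⁻¹ ^ 3) • e) := by
    unfold pp
    rw [← he]
    module
  have e2 : 2 * rh j + 2 * (√2)⁻¹ ^ 3 ≤ ‖uu (pp 1 j) - uu (pp (-1) j)‖ + 1 / 128 + 1 / 128 := by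
    calc 2 * rh j + 2 * (√2)⁻¹ ^ 3 = ‖(2 * rh j + 2 * (√2)⁻¹ ^ 3) • e‖ := by
          rw [norm_smul, hen, mul_one, Real.norm_of_nonneg (by positivity)]
      _ ≤ ‖uu (pp 1 j) - uu (pp (-1) j)‖ +
          ‖uu (pp 1 j) - pp 1 j - (1 * (√2)⁻¹ ^ 3) • e‖ +
          ‖uu (pp (-1) j) - pp (-1) j - (-1 * (√2)⁻¹ ^ 3) • e‖ := by
          rw [e1]
          exact (norm_add_le _ _).trans (add_le_add_left (norm_sub_le _ _) _)
      _ ≤ _ := by linarith
  linarith

theorem b_tendsto : Tendsto b atTop (𝓝 0) :=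
  tendsto_pow_atTop_nhds_zero_of_lt_one (by norm_num) (by norm_num)

theorem pp_tendsto (s : ℝ) : Tendsto (pp s) atTop (𝓝 0) := by
  unfold pp yc rh
  have h1 := (b_tendsto.smul_const (EuclideanSpace.single 0 1 : Vec 3))
  have h2 := (((b_tendsto.pow 3).div_const 64).const_mul s).smul_const
    (EuclideanSpace.single 0 1 : Vec 3)
  have := h1.add h2
  simpa using this

theorem not_continuous : ¬ ContinuousInHalf uu := by
  rintro ⟨v, hv, hc⟩
  have hsub : ∀ j, 2 ≤ j → ball (yc j) (b j / 4) ⊆ ball (0 : Vec 3) (1 / 2) := by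
    intro j hj x hx
    rw [mem_ball, dist_eq_norm] at hx
    rw [mem_ball_zero_iff]
    have h3 : ‖x‖ ≤ ‖yc j‖ + ‖x - yc j‖ := by
      have : x = yc j + (x - yc j) := by abel
      calc ‖x‖ = _ := congrArg _ this
        _ ≤ _ := norm_add_le _ _
    rw [yc_norm] at h3
    have h4 : b j ≤ 1 / 4 := by
      unfold b
      calc ((1:ℝ) / 2) ^ j ≤ (1 / 2) ^ 2 :=
            pow_le_pow_of_le_one (by norm_num) (by norm_num) hj
        _ = 1 / 4 := by norm_num
    linarith
  have heq : ∀ j, 2 ≤ j → ∀ x ∈ ball (yc j) (b j / 4), uu x = v x := by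
    intro j hj
    exact Measure.eqOn_open_of_ae_eq (μ := volume) (ae_restrict_of_ae_restrict_of_subset
      (hsub j hj) hv) isOpen_ball (uu_cont j) (hc.mono (hsub j hj))
  have h0 : ContinuousAt v 0 := hc.continuousAt (isOpen_ball.mem_nhds (mem_ball_self (by norm_num)))
  have h1 : Tendsto (fun j => ‖v (pp 1 j) - v (pp (-1) j)‖) atTop (𝓝 0) := by
    have h2 := h0.tendsto.comp (pp_tendsto 1)
    have h3 := h0.tendsto.comp (pp_tendsto (-1))
    have := (h2.sub h3).norm
    simpa using this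
  have h2 : ∀ᶠ j in atTop, (1:ℝ) / 2 ≤ ‖v (pp 1 j) - v (pp (-1) j)‖ := by
    filter_upwards [eventually_ge_atTop 2] with j hj
    have n1 := pp_near (s := 1) (by norm_num) j
    have n2 := pp_near (s := -1) (by norm_num) j
    rw [← heq j hj _ (by rwa [mem_ball, dist_eq_norm]),
      ← heq j hj _ (by rwa [mem_ball, dist_eq_norm])]
    exact jump j
  have h3 := ge_of_tendsto h1 h2
  norm_num at h3

theorem holder_continuous {u : Vec 3 → Vec 3} (h : HolderInHalf u) : ContinuousInHalf u := by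
  obtain ⟨v, hv, α, C, hα, _, hC⟩ := h
  refine ⟨v, hv, fun x hx => ?_⟩
  rw [ContinuousWithinAt, tendsto_iff_norm_sub_tendsto_zero]
  have h1 : Tendsto (fun y : Vec 3 => C * ‖y - x‖ ^ α) (𝓝[ball 0 (1 / 2)] x) (𝓝 0) := by
    have h2 : Tendsto (fun y : Vec 3 => ‖y - x‖) (𝓝[ball 0 (1 / 2)] x) (𝓝 0) := by
      have : Tendsto (fun y : Vec 3 => ‖y - x‖) (𝓝 x) (𝓝 ‖x - x‖) :=
        ((continuous_id.sub continuous_const).norm).tendsto x
      rw [sub_self, norm_zero] at this
      exact this.mono_left nhdsWithin_le_nhds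
    have h3 := (Real.continuousAt_rpow_const 0 α (Or.inr hα.le)).tendsto
    rw [Real.zero_rpow hα.ne'] at h3
    simpa using (h3.comp h2).const_mul C
  refine squeeze_zero' (Eventually.of_forall fun _ => norm_nonneg _) ?_ h1
  filter_upwards [self_mem_nhdsWithin] with y hy
  exact hC y hy x hx

/-- the right-hand side -/
noncomputable def QQ (x : Vec 3) (_ : Vec 3) (z : Mat 3 3) : Vec 3 :=
  (‖z‖ ^ 2 / ‖Du x‖ ^ 2) • Lu x

theorem QQ_growth : QuadraticGrowth QQ := by
  refine ⟨15, by norm_num, fun x y z => ?_⟩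
  unfold QQ
  have h := Du_pos x
  rw [norm_smul, Real.norm_of_nonneg (by positivity)]
  calc ‖z‖ ^ 2 / ‖Du x‖ ^ 2 * ‖Lu x‖ ≤ ‖z‖ ^ 2 / ‖Du x‖ ^ 2 * (15 * ‖Du x‖ ^ 2) := by
        gcongr; exact Lu_le x
    _ = 15 * ‖z‖ ^ 2 := by field_simp

theorem QQ_eq (x : Vec 3) : QQ x (uu x) (Du x) = Lu x := by
  unfold QQ
  have h := Du_pos x
  rw [div_self (by positivity), one_smul]

theorem result : ∃ (Q : Vec 3 → Vec 3 → Mat 3 3 → Vec 3) (u : Vec 3 → Vec 3)
    (Du : Vec 3 → Mat 3 3), QuadraticGrowth Q ∧ IsWeakSolution Q u Du ∧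
      (∀ p : ℝ, 2 ≤ p → p < 3 → MemW1p p u Du ∧
        ∀ x0 ∈ ball (0 : Vec 3) 1, Tendsto (morrey p Du x0) (𝓝[>] 0) (𝓝 0)) ∧
      ¬ HolderInHalf u ∧ ¬ ContinuousInHalf u := by
  have hW : ∀ p : ℝ, 2 ≤ p → p < 3 → MemW1p p uu Du := fun p hp hp3 =>
    ⟨uu_memLp _, Du_memLp (by linarith) hp3, weak_grad⟩
  refine ⟨QQ, uu, Du, QQ_growth, ⟨hW 2 le_rfl (by norm_num), ?_, ?_⟩, ?_,
    fun h => not_continuous (holder_continuous h), not_continuous⟩
  · simp_rw [QQ_eq]
    exact Lu_int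
  · intro φ hφ
    simp_rw [QQ_eq]
    exact weak_eq φ hφ
  · intro p hp hp3
    refine ⟨hW p hp hp3, fun x0 _ => ?_⟩
    have e : morrey p Du x0 = MM p x0 := by
      ext r
      unfold morrey MM
      norm_num
    rw [e]
    by_cases h : x0 = 0
    · rw [h]; exact MM_zero (by linarith) hp3
    · exact MM_ne (by linarith) hp3 h

end Pool.Agent.Results.MP_105042_an.Bubbles
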